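import Pool.Agent.W477.CL.Stms

/-!
# Listing the finite sets of natural numbers (OC-ENUM)
-/

set_option maxHeartbeats 1000000
set_option linter.all false

namespace Pool.Agent.W928.OC

open FirstOrder FirstOrder.Language
open Pool.Agent.Helper672.ZFA hiding IsOrdPair IsPair Mem
open Pool.Agent.H310
open Pool.Agent.W924
open Pool.Agent.W477.CL

universe u

section

variable {M : Type u} [L.Structure M] [hM : IsModel M]

/-- binary successor -/
noncomputable def inc (S : IPow M (INat M)) : IPow M (INat M) :=
  sep M (fun i => ∃ k, ¬ k ∈ S ∧ (∀ j, j < k → j ∈ S) ∧ (i = k ∨ (i ∈ S ∧ k < i)))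

theorem int_inc : IntF M (fun S : IPow M (INat M) => inc S) := by
  unfold inc
  (repeat' (first | with_reducible exact IntF.id | with_reducible exact IntF.fst' | with_reducible exact IntF.snd' | with_reducible exact IntF.const _ | with_reducible exact Int.const _ | assumption | with_reducible apply Int.and | with_reducible apply Int.or | with_reducible apply Int.not | with_reducible apply Int.imp | with_reducible apply Int.iff | with_reducible apply Int.ne | with_reducible apply Int.eq | with_reducible apply Int.mem | with_reducible apply Int.subset | with_reducible apply Int.ltN | with_reducible apply Int.leN | with_reducible apply Int.fin | with_reducible apply Int.unique | with_reducible apply Int.all | with_reducible apply Int.ex | with_reducible apply IntF.fst | with_reducible apply IntF.snd | with_reducible apply IntF.app | with_reducible apply IntF.ite | with_reducible apply IntF.sep | with_reducible apply IntF.lam | with_reducible apply IntF.insert | with_reducible apply IntF.singleton | with_reducible apply IntF.union | with_reducible apply IntF.inter | with_reducible apply IntF.sdiff | with_reducible apply IntF.isUnion | with_reducible apply IntF.iimage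 | with_reducible apply IntF.the | with_reducible apply IntF.irec | with_reducible_and_instances apply IntF.mul | with_reducible_and_instances apply IntF.inv | with_reducible_and_instances apply IntF.smul | with_reducible apply IntF.succ | with_reducible apply IntF.val | with_reducible apply IntF.mk | (with_reducible refine Int.comp ?_ ?_; assumption) | (with_reducible refine Int.comp₂ ?_ ?_ ?_; assumption) | (with_reducible refine Int.comp₃ ?_ ?_ ?_ ?_; assumption) | (with_reducible refine Int.comp₄ ?_ ?_ ?_ ?_ ?_; assumption) | (with_reducible refine IntF.comp ?_ ?_; assumption) | (with_reducible refine IntF.comp₂ ?_ ?_ ?_; assumption) | (with_reducible refine Helper672.ZFA.IntF.comp₃ ?_ ?_ ?_ ?_; assumption) | with_reducible apply IntF.pair))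

theorem mem_inc {S : IPow M (INat M)} {i : INat M} : i ∈ inc S ↔
    ∃ k, ¬ k ∈ S ∧ (∀ j, j < k → j ∈ S) ∧ (i = k ∨ (i ∈ S ∧ k < i)) := by
  unfold inc
  rw [mem_sep (by (repeat' (first | with_reducible exact IntF.id | with_reducible exact IntF.fst' | with_reducible exact IntF.snd' | with_reducible exact IntF.const _ | with_reducible exact Int.const _ | assumption | with_reducible apply Int.and | with_reducible apply Int.or | with_reducible apply Int.not | with_reducible apply Int.imp | with_reducible apply Int.iff | with_reducible apply Int.ne | with_reducible apply Int.eq | with_reducible apply Int.mem | with_reducible apply Int.subset | with_reducible apply Int.ltN | with_reducible apply Int.leN | with_reducible apply Int.fin | with_reducible apply Int.unique | with_reducible apply Int.all | with_reducible apply Int.ex | with_reducible apply IntF.fst | with_reducible apply IntF.snd | with_reducible apply IntF.app | with_reducible apply IntF.ite | with_reducible apply IntF.sep | with_reducible apply IntF.lam | with_reducible apply IntF.insert | with_reducible apply IntF.singleton | with_reducible apply IntF.union | with_reducible apply IntF.inter | with_reducible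 apply IntF.sdiff | with_reducible apply IntF.isUnion | with_reducible apply IntF.iimage | with_reducible apply IntF.the | with_reducible apply IntF.irec | with_reducible_and_instances apply IntF.mul | with_reducible_and_instances apply IntF.inv | with_reducible_and_instances apply IntF.smul | with_reducible apply IntF.succ | with_reducible apply IntF.val | with_reducible apply IntF.mk | (with_reducible refine Int.comp ?_ ?_; assumption) | (with_reducible refine Int.comp₂ ?_ ?_ ?_; assumption) | (with_reducible refine Int.comp₃ ?_ ?_ ?_ ?_; assumption) | (with_reducible refine Int.comp₄ ?_ ?_ ?_ ?_ ?_; assumption) | (with_reducible refine IntF.comp ?_ ?_; assumption) | (with_reducible refine IntF.comp₂ ?_ ?_ ?_; assumption) | (with_reducible refine Helper672.ZFA.IntF.comp₃ ?_ ?_ ?_ ?_; assumption) | with_reducible apply IntF.pair)))]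

theorem mem_inc_of {S : IPow M (INat M)} {i k : INat M} (hk : ¬ k ∈ S)
    (hk' : ∀ j, j < k → j ∈ S) : i ∈ inc S ↔ (i = k ∨ (i ∈ S ∧ k < i)) := by
  rw [mem_inc]
  constructor
  · rintro ⟨k', h1, h2, h3⟩
    have e : k' = k := by
      rcases lt_trichotomy k' k with h | h | h
      · exact absurd (hk' _ h) h1
      · exact h
      · exact absurd (h2 _ h) hk
    rw [← e]
    exact h3
  · intro h
    exact ⟨k, hk, hk', h⟩

theorem fin_inc {S : IPow M (INat M)} (hS : IFin S) : IFin (inc S) := by
  by_cases h : ∃ k, ¬ k ∈ S ∧ ∀ j, j < k → j ∈ S
  · obtain ⟨k, h1, h2⟩ := h
    refine (hS.insert k).subset fun i hi => ?_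
    rw [mem_inc_of h1 h2] at hi
    rw [mem_insert]
    rcases hi with h | h
    · exact Or.inl h
    · exact Or.inr h.1
  · refine IFin.empty.subset fun i hi => ?_
    rw [mem_inc] at hi
    obtain ⟨k, h1, h2, -⟩ := hi
    exact absurd ⟨k, h1, h2⟩ h

theorem int_inc' : IntF M (fun q : INat M × IPow M (INat M) => inc q.2) :=
  int_inc.comp IntF.snd'

/-- the list -/
noncomputable def EN (n : INat M) : IPow M (INat M) := irec ∅ (fun _ S => inc S) n

theorem int_EN : IntF M (fun n : INat M => EN n) := by
  unfold EN
  exact IntF.irec (IntF.const _) (int_inc.comp IntF.snd') IntF.id

theorem EN_zero : EN (0 : INat M) = ∅ := irec_zero int_inc'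

theorem EN_succ (n : INat M) : EN n.succ = inc (EN n) := irec_succ int_inc' n

theorem fin_EN (n : INat M) : IFin (EN n) := by
  have hE : IntF M (fun n : INat M => EN n) := int_EN
  refine INat.ind (p := fun n : INat M => IFin (EN n)) (Int.fin hE) ?_ ?_ n
  · rw [EN_zero]
    exact IFin.empty
  · intro n ih
    rw [EN_succ]
    exact fin_inc ih

theorem EN_claim (n : INat M) : ∀ T S : IPow M (INat M), (∃ m, EN m = T) →
    (∀ i, i ∈ T → n ≤ i) → (∀ i, i ∈ S → i < n) → ∃ m, EN m = T ∪ S := by
  have hE : IntF M (fun n : INat M => EN n) := int_EN
  refine INat.ind (p := fun n : INat M => ∀ T S : IPow M (INat M), (∃ m, EN m = T) →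
    (∀ i, i ∈ T → n ≤ i) → (∀ i, i ∈ S → i < n) → ∃ m, EN m = T ∪ S) ?_ ?_ ?_ n
  · (repeat' (first | with_reducible exact IntF.id | with_reducible exact IntF.fst' | with_reducible exact IntF.snd' | with_reducible exact IntF.const _ | with_reducible exact Int.const _ | assumption | with_reducible apply Int.and | with_reducible apply Int.or | with_reducible apply Int.not | with_reducible apply Int.imp | with_reducible apply Int.iff | with_reducible apply Int.ne | with_reducible apply Int.eq | with_reducible apply Int.mem | with_reducible apply Int.subset | with_reducible apply Int.ltN | with_reducible apply Int.leN | with_reducible apply Int.fin | with_reducible apply Int.unique | with_reducible apply Int.all | with_reducible apply Int.ex | with_reducible apply IntF.fst | with_reducible apply IntF.snd | with_reducible apply IntF.app | with_reducible apply IntF.ite | with_reducible apply IntF.sep | with_reducible apply IntF.lam | with_reducible apply IntF.insert | with_reducible apply IntF.singleton | with_reducible apply IntF.union | with_reducible apply IntF.inter | with_reducible apply IntF.sdiff | with_reducible apply IntF.isUnion | with_reducible apply IntF.iimage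 | with_reducible apply IntF.the | with_reducible apply IntF.irec | with_reducible_and_instances apply IntF.mul | with_reducible_and_instances apply IntF.inv | with_reducible_and_instances apply IntF.smul | with_reducible apply IntF.succ | with_reducible apply IntF.val | with_reducible apply IntF.mk | (with_reducible refine Int.comp ?_ ?_; assumption) | (with_reducible refine Int.comp₂ ?_ ?_ ?_; assumption) | (with_reducible refine Int.comp₃ ?_ ?_ ?_ ?_; assumption) | (with_reducible refine Int.comp₄ ?_ ?_ ?_ ?_ ?_; assumption) | (with_reducible refine IntF.comp ?_ ?_; assumption) | (with_reducible refine IntF.comp₂ ?_ ?_ ?_; assumption) | (with_reducible refine Helper672.ZFA.IntF.comp₃ ?_ ?_ ?_ ?_; assumption) | with_reducible apply IntF.pair))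
  · intro T S hT _ hS
    have e : T ∪ S = T := IPow.ext' fun x => by
      rw [mem_union]
      exact ⟨fun h => h.elim id fun h => absurd (hS x h) INat.not_lt_zero, Or.inl⟩
    rw [e]
    exact hT
  · intro n ih T S hT hT' hS
    have hS' : ∀ i, i ∈ S → i ≤ n := fun i hi => INat.lt_succ_iff.1 (hS i hi)
    have hTn : ∀ i, i ∈ T → n < i := fun i hi => INat.succ_le_iff.1 (hT' i hi)
    by_cases hn : n ∈ S
    · have hF : ∀ i, i ∈ (sep M fun i : INat M => i < n) ↔ i < n := fun i => by
        rw [mem_sep (by (repeat' (first | with_reducible exact IntF.id | with_reducible exact IntF.fst' | with_reducible exact IntF.snd' | with_reducible exact IntF.const _ | with_reducible exact Int.const _ | assumption | with_reducible apply Int.and | with_reducible apply Int.or | with_reducible apply Int.not | with_reducible apply Int.imp | with_reducible apply Int.iff | with_reducible apply Int.ne | with_reducible apply Int.eq | with_reducible apply Int.mem | with_reducible apply Int.subset | with_reducible apply Int.ltN | with_reducible apply Int.leN | with_reducible apply Int.fin | with_reducible apply Int.unique | with_reducible apply Int.all | with_reducible apply Int.ex |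 with_reducible apply IntF.fst | with_reducible apply IntF.snd | with_reducible apply IntF.app | with_reducible apply IntF.ite | with_reducible apply IntF.sep | with_reducible apply IntF.lam | with_reducible apply IntF.insert | with_reducible apply IntF.singleton | with_reducible apply IntF.union | with_reducible apply IntF.inter | with_reducible apply IntF.sdiff | with_reducible apply IntF.isUnion | with_reducible apply IntF.iimage | with_reducible apply IntF.the | with_reducible apply IntF.irec | with_reducible_and_instances apply IntF.mul | with_reducible_and_instances apply IntF.inv | with_reducible_and_instances apply IntF.smul | with_reducible apply IntF.succ | with_reducible apply IntF.val | with_reducible apply IntF.mk | (with_reducible refine Int.comp ?_ ?_; assumption) | (with_reducible refine Int.comp₂ ?_ ?_ ?_; assumption) | (with_reducible refine Int.comp₃ ?_ ?_ ?_ ?_; assumption) | (with_reducible refine Int.comp₄ ?_ ?_ ?_ ?_ ?_; assumption) | (with_reducible refine IntF.comp ?_ ?_; assumption) | (with_reducible refine IntF.comp₂ ?_ ?_ ?_; assumption) | (with_reducible refine Helper672.ZFA.IntF.comp₃ ?_ ?_ ?_ ?_; assumption) | with_reducible apply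 IntF.pair)))]
      obtain ⟨m, hm⟩ := ih T (sep M fun i : INat M => i < n) hT (fun i hi => (hTn i hi).le)
        fun i hi => (hF i).1 hi
      have hk : ¬ n ∈ T ∪ (sep M fun i : INat M => i < n) := by
        rw [mem_union, hF]
        rintro (h | h)
        · exact lt_irrefl _ (hTn n h)
        · exact lt_irrefl _ h
      have hk' : ∀ j, j < n → j ∈ T ∪ (sep M fun i : INat M => i < n) := by
        intro j hj
        rw [mem_union, hF]
        exact Or.inr hj
      have hR : ∃ m, EN m = insert n T := by
        refine ⟨m.succ, ?_⟩
        rw [EN_succ, hm]
        refine IPow.ext' fun x => ?_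
        rw [mem_inc_of hk hk', mem_union, hF, mem_insert]
        constructor
        · rintro (h | ⟨h | h, h'⟩)
          · exact Or.inl h
          · exact Or.inr h
          · exact absurd (h.trans h') (lt_irrefl _)
        · rintro (h | h)
          · exact Or.inl h
          · exact Or.inr ⟨Or.inl h, hTn x h⟩
      have h1 := ih (insert n T) (S \ {n}) hR (by
        intro i hi
        rw [mem_insert] at hi
        rcases hi with h | h
        · exact h.ge
        · exact (hTn i h).le) (by
        intro i hi
        rw [mem_sdiff, mem_singleton] at hi
        exact lt_of_le_of_ne (hS' i hi.1) hi.2)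
      have e : (insert n T) ∪ (S \ {n}) = T ∪ S := IPow.ext' fun x => by
        rw [mem_union, mem_insert, mem_sdiff, mem_singleton, mem_union]
        by_cases hx : x = n
        · subst hx
          simp [hn]
        · simp [hx]
      rw [e] at h1
      exact h1
    · refine ih T S hT (fun i hi => (hTn i hi).le) fun i hi => ?_
      exact lt_of_le_of_ne (hS' i hi) fun e => hn (e ▸ hi)

end

theorem enum_holds : P_ENUM.{u} := by
  intro M _ _
  refine ⟨EN, int_EN, fin_EN, fun S hS => ?_⟩
  obtain ⟨n, hn⟩ := FinP.bound (p := fun i : INat M => i ∈ S) ⟨S, hS, fun _ h => h⟩
  have h := EN_claim n.succ ∅ S ⟨0, EN_zero⟩ (fun i hi => absurd hi (by simp))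
    fun i hi => INat.lt_succ_iff.2 (hn i hi)
  have e : (∅ ∪ S : IPow M (INat M)) = S := IPow.ext' fun x => by simp
  rw [e] at h
  exact h

end Pool.Agent.W928.OC
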