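import Pool.Agent.W477.CL.Stms

/-!
# Existence of a set with the extension property (OC-EPEX)
-/

set_option maxHeartbeats 1000000
set_option linter.all false

namespace Pool.Agent.W928.OC

open FirstOrder FirstOrder.Language
open Pool.Agent.Helper672.ZFA hiding IsOrdPair IsPair Mem
open Pool.Agent.H310
open Pool.Agent.W924
open Pool.Agent.W477.CL

universe u

section

variable {M : Type u} [L.Structure M] [hM : IsModel M]

/-- `k` is the code of `B` -/
def IsCd (E : INat M → IPow M (INat M)) (B : IPow M (INat M)) (k : INat M) : Prop :=
  E k = B ∧ ∀ j, E j = B → k ≤ j

theorem int_IsCd {E : INat M → IPow M (INat M)} (hE : IntF M E) :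
    Int M (fun q : IPow M (INat M) × INat M => IsCd E q.1 q.2) := by
  unfold IsCd
  (repeat' (first | with_reducible exact IntF.id | with_reducible exact IntF.fst' | with_reducible exact IntF.snd' | with_reducible exact IntF.const _ | with_reducible exact Int.const _ | assumption | with_reducible apply Int.and | with_reducible apply Int.or | with_reducible apply Int.not | with_reducible apply Int.imp | with_reducible apply Int.iff | with_reducible apply Int.ne | with_reducible apply Int.eq | with_reducible apply Int.mem | with_reducible apply Int.subset | with_reducible apply Int.ltN | with_reducible apply Int.leN | with_reducible apply Int.fin | with_reducible apply Int.unique | with_reducible apply Int.all | with_reducible apply Int.ex | with_reducible apply IntF.fst | with_reducible apply IntF.snd | with_reducible apply IntF.app | with_reducible apply IntF.ite | with_reducible apply IntF.sep | with_reducible apply IntF.lam | with_reducible apply IntF.insert | with_reducible apply IntF.singleton | with_reducible apply IntF.union | with_reducible apply IntF.inter | with_reducible apply IntF.sdiff | with_reducible apply IntF.isUnion | with_reducible apply IntF.iimage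 | with_reducible apply IntF.the | with_reducible apply IntF.irec | with_reducible_and_instances apply IntF.mul | with_reducible_and_instances apply IntF.inv | with_reducible_and_instances apply IntF.smul | with_reducible apply IntF.succ | with_reducible apply IntF.val | with_reducible apply IntF.mk | (with_reducible refine Int.comp ?_ ?_; assumption) | (with_reducible refine Int.comp₂ ?_ ?_ ?_; assumption) | (with_reducible refine Int.comp₃ ?_ ?_ ?_ ?_; assumption) | (with_reducible refine Int.comp₄ ?_ ?_ ?_ ?_ ?_; assumption) | (with_reducible refine IntF.comp ?_ ?_; assumption) | (with_reducible refine IntF.comp₂ ?_ ?_ ?_; assumption) | (with_reducible refine Helper672.ZFA.IntF.comp₃ ?_ ?_ ?_ ?_; assumption) | with_reducible apply IntF.pair))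

theorem exists_cd {E : INat M → IPow M (INat M)} (hE : IntF M E) (B : IPow M (INat M))
    (h : ∃ k, E k = B) : ∃! k, IsCd E B k := by
  obtain ⟨k, hk, hk'⟩ := INat.exists_least (p := fun k : INat M => E k = B) (by (repeat' (first | with_reducible exact IntF.id | with_reducible exact IntF.fst' | with_reducible exact IntF.snd' | with_reducible exact IntF.const _ | with_reducible exact Int.const _ | assumption | with_reducible apply Int.and | with_reducible apply Int.or | with_reducible apply Int.not | with_reducible apply Int.imp | with_reducible apply Int.iff | with_reducible apply Int.ne | with_reducible apply Int.eq | with_reducible apply Int.mem | with_reducible apply Int.subset | with_reducible apply Int.ltN | with_reducible apply Int.leN | with_reducible apply Int.fin | with_reducible apply Int.unique | with_reducible apply Int.all | with_reducible apply Int.ex | with_reducible apply IntF.fst | with_reducible apply IntF.snd | with_reducible apply IntF.app | with_reducible apply IntF.ite | with_reducible apply IntF.sep | with_reducible apply IntF.lam | with_reducible apply IntF.insert | with_reducible apply IntF.singleton | with_reducible apply IntF.union | with_reducible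 apply IntF.inter | with_reducible apply IntF.sdiff | with_reducible apply IntF.isUnion | with_reducible apply IntF.iimage | with_reducible apply IntF.the | with_reducible apply IntF.irec | with_reducible_and_instances apply IntF.mul | with_reducible_and_instances apply IntF.inv | with_reducible_and_instances apply IntF.smul | with_reducible apply IntF.succ | with_reducible apply IntF.val | with_reducible apply IntF.mk | (with_reducible refine Int.comp ?_ ?_; assumption) | (with_reducible refine Int.comp₂ ?_ ?_ ?_; assumption) | (with_reducible refine Int.comp₃ ?_ ?_ ?_ ?_; assumption) | (with_reducible refine Int.comp₄ ?_ ?_ ?_ ?_ ?_; assumption) | (with_reducible refine IntF.comp ?_ ?_; assumption) | (with_reducible refine IntF.comp₂ ?_ ?_ ?_; assumption) | (with_reducible refine Helper672.ZFA.IntF.comp₃ ?_ ?_ ?_ ?_; assumption) | with_reducible apply IntF.pair))) h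
  exact ⟨k, ⟨hk, hk'⟩, fun j hj => le_antisymm (hj.2 k hk) (hk' j hj.1)⟩

/-- the code -/
noncomputable def cd (E : INat M → IPow M (INat M)) (B : IPow M (INat M)) : INat M :=
  the (fun k => IsCd E B k) 0

theorem int_cd {E : INat M → IPow M (INat M)} (hE : IntF M E) :
    IntF M (fun B : IPow M (INat M) => cd E B) := by
  have h : Int M (fun q : IPow M (INat M) × INat M => IsCd E q.1 q.2) := int_IsCd hE
  unfold cd
  exact IntF.the h (IntF.const _)

/-- the set -/
noncomputable def cset (E : INat M → IPow M (INat M)) : IPow M (IPow M (INat M)) :=
  sep M (fun B => ∃ z, z ∈ B ∧ (∀ y, y ∈ B → y ≤ z) ∧ ∃ k, k ∈ E z ∧ E k = B \ {z})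

theorem mem_cset {E : INat M → IPow M (INat M)} (hE : IntF M E) {B : IPow M (INat M)} :
    B ∈ cset E ↔ ∃ z, z ∈ B ∧ (∀ y, y ∈ B → y ≤ z) ∧ ∃ k, k ∈ E z ∧ E k = B \ {z} := by
  unfold cset
  rw [mem_sep (by (repeat' (first | with_reducible exact IntF.id | with_reducible exact IntF.fst' | with_reducible exact IntF.snd' | with_reducible exact IntF.const _ | with_reducible exact Int.const _ | assumption | with_reducible apply Int.and | with_reducible apply Int.or | with_reducible apply Int.not | with_reducible apply Int.imp | with_reducible apply Int.iff | with_reducible apply Int.ne | with_reducible apply Int.eq | with_reducible apply Int.mem | with_reducible apply Int.subset | with_reducible apply Int.ltN | with_reducible apply Int.leN | with_reducible apply Int.fin | with_reducible apply Int.unique | with_reducible apply Int.all | with_reducible apply Int.ex | with_reducible apply IntF.fst | with_reducible apply IntF.snd | with_reducible apply IntF.app | with_reducible apply IntF.ite | with_reducible apply IntF.sep | with_reducible apply IntF.lam | with_reducible apply IntF.insert | with_reducible apply IntF.singleton | with_reducible apply IntF.union | with_reducible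 apply IntF.inter | with_reducible apply IntF.sdiff | with_reducible apply IntF.isUnion | with_reducible apply IntF.iimage | with_reducible apply IntF.the | with_reducible apply IntF.irec | with_reducible_and_instances apply IntF.mul | with_reducible_and_instances apply IntF.inv | with_reducible_and_instances apply IntF.smul | with_reducible apply IntF.succ | with_reducible apply IntF.val | with_reducible apply IntF.mk | (with_reducible refine Int.comp ?_ ?_; assumption) | (with_reducible refine Int.comp₂ ?_ ?_ ?_; assumption) | (with_reducible refine Int.comp₃ ?_ ?_ ?_ ?_; assumption) | (with_reducible refine Int.comp₄ ?_ ?_ ?_ ?_ ?_; assumption) | (with_reducible refine IntF.comp ?_ ?_; assumption) | (with_reducible refine IntF.comp₂ ?_ ?_ ?_; assumption) | (with_reducible refine Helper672.ZFA.IntF.comp₃ ?_ ?_ ?_ ?_; assumption) | with_reducible apply IntF.pair)))]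

theorem ep_cset {E : INat M → IPow M (INat M)} (hE : IntF M E) (hfin : ∀ n, IFin (E n))
    (hsur : ∀ S : IPow M (INat M), IFin S → ∃ n, E n = S) : EP (cset E) := by
  intro A φ hA
  have hIs : Int M (fun q : IPow M (INat M) × INat M => IsCd E q.1 q.2) := int_IsCd hE
  have hcdI : IntF M (fun B : IPow M (INat M) => cd E B) := int_cd hE
  have hcd : ∀ B : IPow M (INat M), IFin B → IsCd E B (cd E B) := by
    intro B hB
    exact the_spec (p := fun k => IsCd E B k) (exists_cd hE B (hsur B hB))
  have hcdu : ∀ (B : IPow M (INat M)) (k : INat M), IsCd E B k → k = cd E B := by
    intro B k hk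
    have h1 : ∃! k, IsCd E B k := exists_cd hE B ⟨k, hk.1⟩
    exact h1.unique hk (the_spec (p := fun k => IsCd E B k) h1)
  -- the bound of `A`
  obtain ⟨L0, hL0⟩ := FinP.bound (p := fun i : INat M => i ∈ A) ⟨A, hA, fun _ h => h⟩
  -- the elements of the first sets
  have hF : IFin (sep M fun m : INat M => m ≤ L0) := (finP_le L0).fin (by (repeat' (first | with_reducible exact IntF.id | with_reducible exact IntF.fst' | with_reducible exact IntF.snd' | with_reducible exact IntF.const _ | with_reducible exact Int.const _ | assumption | with_reducible apply Int.and | with_reducible apply Int.or | with_reducible apply Int.not | with_reducible apply Int.imp | with_reducible apply Int.iff | with_reducible apply Int.ne | with_reducible apply Int.eq | with_reducible apply Int.mem | with_reducible apply Int.subset | with_reducible apply Int.ltN | with_reducible apply Int.leN | with_reducible apply Int.fin | with_reducible apply Int.unique | with_reducible apply Int.all | with_reducible apply Int.ex | with_reducible apply IntF.fst | with_reducible apply IntF.snd | with_reducible apply IntF.app | with_reducible apply IntF.ite | with_reducible apply IntF.sep | with_reducible apply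 IntF.lam | with_reducible apply IntF.insert | with_reducible apply IntF.singleton | with_reducible apply IntF.union | with_reducible apply IntF.inter | with_reducible apply IntF.sdiff | with_reducible apply IntF.isUnion | with_reducible apply IntF.iimage | with_reducible apply IntF.the | with_reducible apply IntF.irec | with_reducible_and_instances apply IntF.mul | with_reducible_and_instances apply IntF.inv | with_reducible_and_instances apply IntF.smul | with_reducible apply IntF.succ | with_reducible apply IntF.val | with_reducible apply IntF.mk | (with_reducible refine Int.comp ?_ ?_; assumption) | (with_reducible refine Int.comp₂ ?_ ?_ ?_; assumption) | (with_reducible refine Int.comp₃ ?_ ?_ ?_ ?_; assumption) | (with_reducible refine Int.comp₄ ?_ ?_ ?_ ?_ ?_; assumption) | (with_reducible refine IntF.comp ?_ ?_; assumption) | (with_reducible refine IntF.comp₂ ?_ ?_ ?_; assumption) | (with_reducible refine Helper672.ZFA.IntF.comp₃ ?_ ?_ ?_ ?_; assumption) | with_reducible apply IntF.pair)))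
  have hU : IFin (isUnion (iimage E (sep M fun m : INat M => m ≤ L0))) := by
    refine IFin.isUnion (hF.image hE) ?_
    intro s hs
    obtain ⟨m, -, rfl⟩ := (mem_iimage hE).1 hs
    exact hfin m
  have hmemU : ∀ x m, m ≤ L0 → x ∈ E m →
      x ∈ isUnion (iimage E (sep M fun m : INat M => m ≤ L0)) := by
    intro x m hm hx
    rw [mem_isUnion]
    exact ⟨E m, (mem_iimage hE).2 ⟨m, (mem_sep (by (repeat' (first | with_reducible exact IntF.id | with_reducible exact IntF.fst' | with_reducible exact IntF.snd' | with_reducible exact IntF.const _ | with_reducible exact Int.const _ | assumption | with_reducible apply Int.and | with_reducible apply Int.or | with_reducible apply Int.not | with_reducible apply Int.imp | with_reducible apply Int.iff | with_reducible apply Int.ne | with_reducible apply Int.eq | with_reducible apply Int.mem | with_reducible apply Int.subset | with_reducible apply Int.ltN | with_reducible apply Int.leN | with_reducible apply Int.fin | with_reducible apply Int.unique | with_reducible apply Int.all | with_reducible apply Int.ex | with_reducible apply IntF.fst | with_reducible apply IntF.snd | with_reducible apply IntF.app | with_reducible apply IntF.ite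 | with_reducible apply IntF.sep | with_reducible apply IntF.lam | with_reducible apply IntF.insert | with_reducible apply IntF.singleton | with_reducible apply IntF.union | with_reducible apply IntF.inter | with_reducible apply IntF.sdiff | with_reducible apply IntF.isUnion | with_reducible apply IntF.iimage | with_reducible apply IntF.the | with_reducible apply IntF.irec | with_reducible_and_instances apply IntF.mul | with_reducible_and_instances apply IntF.inv | with_reducible_and_instances apply IntF.smul | with_reducible apply IntF.succ | with_reducible apply IntF.val | with_reducible apply IntF.mk | (with_reducible refine Int.comp ?_ ?_; assumption) | (with_reducible refine Int.comp₂ ?_ ?_ ?_; assumption) | (with_reducible refine Int.comp₃ ?_ ?_ ?_ ?_; assumption) | (with_reducible refine Int.comp₄ ?_ ?_ ?_ ?_ ?_; assumption) | (with_reducible refine IntF.comp ?_ ?_; assumption) | (with_reducible refine IntF.comp₂ ?_ ?_ ?_; assumption) | (with_reducible refine Helper672.ZFA.IntF.comp₃ ?_ ?_ ?_ ?_; assumption) | with_reducible apply IntF.pair)))).2 hm, rfl⟩, hx⟩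
  set U := isUnion (iimage E (sep M fun m : INat M => m ≤ L0)) with hUdef
  -- a new code
  obtain ⟨p, hpA, hpU⟩ : ∃ p, ¬ p ∈ A ∧ ¬ cd E {p} ∈ U := by
    by_contra hc
    push Not at hc
    have hf : IntF M (fun p : INat M => cd E {p}) :=
      IntF.comp (g := fun B : IPow M (INat M) => cd E B) hcdI (IntF.singleton IntF.id)
    have h1 : FinP M (fun p : INat M => ¬ p ∈ A) := by
      refine FinP.of_inj (f := fun p : INat M => cd E {p}) (q := fun x => x ∈ U) (by (repeat' (first | with_reducible exact IntF.id | with_reducible exact IntF.fst' | with_reducible exact IntF.snd' | with_reducible exact IntF.const _ | with_reducible exact Int.const _ | assumption | with_reducible apply Int.and | with_reducible apply Int.or | with_reducible apply Int.not | with_reducible apply Int.imp | with_reducible apply Int.iff | with_reducible apply Int.ne | with_reducible apply Int.eq | with_reducible apply Int.mem | with_reducible apply Int.subset | with_reducible apply Int.ltN | with_reducible apply Int.leN | with_reducible apply Int.fin | with_reducible apply Int.unique | with_reducible apply Int.all | with_reducible apply Int.ex | with_reducible apply IntF.fst | with_reducible apply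 IntF.snd | with_reducible apply IntF.app | with_reducible apply IntF.ite | with_reducible apply IntF.sep | with_reducible apply IntF.lam | with_reducible apply IntF.insert | with_reducible apply IntF.singleton | with_reducible apply IntF.union | with_reducible apply IntF.inter | with_reducible apply IntF.sdiff | with_reducible apply IntF.isUnion | with_reducible apply IntF.iimage | with_reducible apply IntF.the | with_reducible apply IntF.irec | with_reducible_and_instances apply IntF.mul | with_reducible_and_instances apply IntF.inv | with_reducible_and_instances apply IntF.smul | with_reducible apply IntF.succ | with_reducible apply IntF.val | with_reducible apply IntF.mk | (with_reducible refine Int.comp ?_ ?_; assumption) | (with_reducible refine Int.comp₂ ?_ ?_ ?_; assumption) | (with_reducible refine Int.comp₃ ?_ ?_ ?_ ?_; assumption) | (with_reducible refine Int.comp₄ ?_ ?_ ?_ ?_ ?_; assumption) | (with_reducible refine IntF.comp ?_ ?_; assumption) | (with_reducible refine IntF.comp₂ ?_ ?_ ?_; assumption) | (with_reducible refine Helper672.ZFA.IntF.comp₃ ?_ ?_ ?_ ?_; assumption) | with_reducible apply IntF.pair))) hf ?_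
        ⟨U, hU, fun _ h => h⟩ hc
      intro a a' _ _ h
      have h2 := (hcd {a} (IFin.singleton a)).1
      have h3 := (hcd {a'} (IFin.singleton a')).1
      have h' : cd E {a} = cd E {a'} := h
      rw [h', h3] at h2
      have h4 : a ∈ ({a'} : IPow M (INat M)) := by
        rw [h2, mem_singleton]
      rwa [mem_singleton] at h4
    have h2 : FinP M (fun p : INat M => p ∈ A) := ⟨A, hA, fun _ h => h⟩
    exact not_finP_nat ((h2.or h1).mono fun a _ => em _)
  set N := cd E {p} with hN
  have hEN : E N = {p} := (hcd {p} (IFin.singleton p)).1
  -- the set of codes
  have hKint : Int M (fun k : INat M => k = N ∨ ∃ B, B ⊆ A ∧ B ∈ φ ∧ IsCd E B k) := by (repeat' (first | with_reducible exact IntF.id | with_reducible exact IntF.fst' | with_reducible exact IntF.snd' | with_reducible exact IntF.const _ | with_reducible exact Int.const _ | assumption | with_reducible apply Int.and | with_reducible apply Int.or | with_reducible apply Int.not | with_reducible apply Int.imp | with_reducible apply Int.iff | with_reducible apply Int.ne | with_reducible apply Int.eq | with_reducible apply Int.mem | with_reducible apply Int.subset | with_reducible apply Int.ltN | with_reducible apply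 Int.leN | with_reducible apply Int.fin | with_reducible apply Int.unique | with_reducible apply Int.all | with_reducible apply Int.ex | with_reducible apply IntF.fst | with_reducible apply IntF.snd | with_reducible apply IntF.app | with_reducible apply IntF.ite | with_reducible apply IntF.sep | with_reducible apply IntF.lam | with_reducible apply IntF.insert | with_reducible apply IntF.singleton | with_reducible apply IntF.union | with_reducible apply IntF.inter | with_reducible apply IntF.sdiff | with_reducible apply IntF.isUnion | with_reducible apply IntF.iimage | with_reducible apply IntF.the | with_reducible apply IntF.irec | with_reducible_and_instances apply IntF.mul | with_reducible_and_instances apply IntF.inv | with_reducible_and_instances apply IntF.smul | with_reducible apply IntF.succ | with_reducible apply IntF.val | with_reducible apply IntF.mk | (with_reducible refine Int.comp ?_ ?_; assumption) | (with_reducible refine Int.comp₂ ?_ ?_ ?_; assumption) | (with_reducible refine Int.comp₃ ?_ ?_ ?_ ?_; assumption) | (with_reducible refine Int.comp₄ ?_ ?_ ?_ ?_ ?_; assumption) | (with_reducible refine IntF.comp ?_ ?_; assumption) | (with_reducible refine IntF.comp₂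 ?_ ?_ ?_; assumption) | (with_reducible refine Helper672.ZFA.IntF.comp₃ ?_ ?_ ?_ ?_; assumption) | with_reducible apply IntF.pair))
  set K : IPow M (INat M) := sep M (fun k => k = N ∨ ∃ B, B ⊆ A ∧ B ∈ φ ∧ IsCd E B k) with hK
  have hmemK : ∀ k, k ∈ K ↔ (k = N ∨ ∃ B, B ⊆ A ∧ B ∈ φ ∧ IsCd E B k) := fun k => mem_sep hKint
  have hKfin : IFin K := by
    refine ((hA.pow.image hcdI).insert N).subset fun k hk => ?_
    rw [mem_insert]
    rcases (hmemK k).1 hk with h | ⟨B, h1, -, h2⟩
    · exact Or.inl h
    · exact Or.inr ((mem_iimage hcdI).2 ⟨B, mem_ipow.2 h1, (hcdu B k h2).symm⟩)
  obtain ⟨z, hz⟩ := hsur K hKfin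
  have hLz : L0 < z := by
    by_contra h
    have h1 : z ≤ L0 := not_lt.1 h
    apply hpU
    refine hmemU N z h1 ?_
    rw [hz, hmemK]
    exact Or.inl rfl
  have hAz : ∀ a, a ∈ A → a < z := fun a ha => lt_of_le_of_lt (hL0 a ha) hLz
  refine ⟨z, fun h => lt_irrefl _ (hAz z h), ?_⟩
  intro B hB
  have hBz : ∀ b, b ∈ B → b < z := fun b hb => hAz b (hB b hb)
  have hsd : (insert z B) \ {z} = B := IPow.ext' fun x => by
    rw [mem_sdiff, mem_insert, mem_singleton]
    constructor
    · rintro ⟨h | h, h'⟩
      · exact absurd h h'
      · exact h
    · intro h
      exact ⟨Or.inr h, (hBz x h).ne⟩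
  have hiff : insert z B ∈ cset E ↔ ∃ k, k ∈ E z ∧ E k = B := by
    rw [mem_cset hE]
    constructor
    · rintro ⟨z', h1, h2, k, h3, h4⟩
      have e : z' = z := by
        rw [mem_insert] at h1
        rcases h1 with h | h
        · exact h
        · exact absurd (h2 z (mem_insert.2 (Or.inl rfl))) (not_le.2 (hBz z' h))
      subst e
      rw [hsd] at h4
      exact ⟨k, h3, h4⟩
    · rintro ⟨k, h3, h4⟩
      refine ⟨z, mem_insert.2 (Or.inl rfl), ?_, k, h3, by rw [hsd]; exact h4⟩
      intro y hy
      rcases mem_insert.1 hy with h | h
      · exact h.le
      · exact (hBz y h).le
  rw [hiff, hz]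
  constructor
  · rintro ⟨k, hk, hkB⟩
    rcases (hmemK k).1 hk with h | ⟨B', -, h2, h3⟩
    · exfalso
      apply hpA
      apply hB
      rw [← hkB, h, hEN, mem_singleton]
    · rw [← hkB, h3.1]
      exact h2
  · intro h
    have h1 := hcd B (hA.subset hB)
    exact ⟨cd E B, (hmemK _).2 (Or.inr ⟨B, hB, h, h1⟩), h1.1⟩

end

theorem epex_holds (h : P_ENUM.{u}) : P_EPEX.{u} := by
  intro M _ _
  obtain ⟨E, hE, hfin, hsur⟩ := h M
  exact ⟨cset E, ep_cset hE hfin hsur⟩

end Pool.Agent.W928.OC
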